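import Mathlib

namespace Pool.Agent.Lib.MP_cd48d2_al

/-- The commutator `[x, y] = x⁻¹ y⁻¹ x y`. -/
def comm {G : Type*} [Group G] (x y : G) : G := x⁻¹ * y⁻¹ * x * y

/-- The left-normed Engel word `[x, y, ..., y]` with `n` copies of `y`. -/
def engelWord {G : Type*} [Group G] : ℕ → G → G → G
  | 0, x, _ => x
  | n + 1, x, y => comm (engelWord n x y) y

/-- `G` is `n`-Engel. -/
def IsEngel (n : ℕ) (G : Type*) [Group G] : Prop := ∀ x y : G, engelWord n x y = 1

/-- Every finitely generated subgroup of `G` is nilpotent. -/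
def LocallyNilpotent (G : Type*) [Group G] : Prop :=
  ∀ H : Subgroup G, H.FG → Group.IsNilpotent H

/-- The set `π` (of primes) is sufficient for `n`. -/
def Sufficient.{u} (n : ℕ) (π : Set ℕ) : Prop :=
  ∀ (G : Type u) [Group G], LocallyNilpotent G → IsEngel n G →
    (∀ p ∈ π, ∀ g : G, orderOf g ≠ p) → Group.IsNilpotent G

section nilp

variable {G : Type*} [Group G]

open Subgroup
open scoped commutatorElement

theorem lcs_commute (j : ℕ) (u v : G) (hu : u ∈ (⊤ : Subgroup G).lowerCentralSeries j) :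
    Commute (QuotientGroup.mk' ((⊤ : Subgroup G).lowerCentralSeries (j + 1)) u)
      (QuotientGroup.mk' ((⊤ : Subgroup G).lowerCentralSeries (j + 1)) v) := by
  have h : ⁅u, v⁆ ∈ (⊤ : Subgroup G).lowerCentralSeries (j + 1) :=
    commutator_mem_commutator hu (mem_top v)
  rw [← QuotientGroup.ker_mk' ((⊤ : Subgroup G).lowerCentralSeries (j + 1)),
    MonoidHom.mem_ker, map_commutatorElement] at h
  exact commutatorElement_eq_one_iff_commute.1 h

theorem lcs_mem_iff (j : ℕ) (u : G) : u ∈ (⊤ : Subgroup G).lowerCentralSeries j ↔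
    QuotientGroup.mk' ((⊤ : Subgroup G).lowerCentralSeries j) u = 1 := by
  rw [← MonoidHom.mem_ker, QuotientGroup.ker_mk']

theorem lcs_pow_mul (j e : ℕ) (u v : G) (hu : u ∈ (⊤ : Subgroup G).lowerCentralSeries j)
    (h1 : u ^ e ∈ (⊤ : Subgroup G).lowerCentralSeries (j + 1))
    (h2 : v ^ e ∈ (⊤ : Subgroup G).lowerCentralSeries (j + 1)) :
    (u * v) ^ e ∈ (⊤ : Subgroup G).lowerCentralSeries (j + 1) := by
  rw [lcs_mem_iff] at h1 h2 ⊢
  rw [map_pow, map_mul, (lcs_commute j u v hu).mul_pow, ← map_pow, ← map_pow, h1, h2, mul_one]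

theorem lcs_comm_pow (j k : ℕ) (a b : G) (ha : a ∈ (⊤ : Subgroup G).lowerCentralSeries j) :
    QuotientGroup.mk' ((⊤ : Subgroup G).lowerCentralSeries (j + 2)) (⁅a, b⁆ ^ k) =
    QuotientGroup.mk' ((⊤ : Subgroup G).lowerCentralSeries (j + 2)) ⁅a ^ k, b⁆ := by
  induction k with
  | zero => simp
  | succ k ih =>
    have h1 : ⁅a ^ (k + 1), b⁆ = a * ⁅a ^ k, b⁆ * a⁻¹ * ⁅a, b⁆ := by
      rw [pow_succ']
      simp only [commutatorElement_def]
      group
    have h2 : ⁅a ^ k, b⁆ ∈ (⊤ : Subgroup G).lowerCentralSeries (j + 1) :=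
      commutator_mem_commutator (pow_mem ha k) (mem_top b)
    have h3 := (lcs_commute (j + 1) ⁅a ^ k, b⁆ a h2).eq
    rw [h1, pow_succ, map_mul, ih]
    simp only [map_mul, map_inv] at h3 ⊢
    rw [← h3]
    group

/-- In a group generated by elements with `x ^ e = 1`, the `e`-th powers of `γ_i` lie in
`γ_{i+1}`. -/
theorem pow_mem_lcs (S : Set G) (hS : closure S = ⊤) (e : ℕ) (he : ∀ x ∈ S, x ^ e = 1) (i : ℕ) :
    ∀ x ∈ (⊤ : Subgroup G).lowerCentralSeries i,
      x ^ e ∈ (⊤ : Subgroup G).lowerCentralSeries (i + 1) := by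
  induction i with
  | zero =>
    intro x _
    have hx : x ∈ closure S := by rw [hS]; trivial
    induction hx using closure_induction with
    | mem x hx => rw [he x hx]; exact one_mem _
    | one => rw [one_pow]; exact one_mem _
    | mul x y _ _ hx hy => exact lcs_pow_mul 0 e x y (mem_top _) (hx trivial) (hy trivial)
    | inv x _ hx => rw [inv_pow]; exact inv_mem (hx trivial)
  | succ i ih =>
    intro x hx
    have hx' : x ∈ closure { x | ∃ p ∈ (⊤ : Subgroup G).lowerCentralSeries i,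
      ∃ q ∈ (⊤ : Subgroup G), ⁅p, q⁆ = x } := hx
    clear hx
    induction hx' using closure_induction with
    | mem x hx =>
      obtain ⟨a, ha, b, _, rfl⟩ := hx
      rw [lcs_mem_iff, lcs_comm_pow i e a b ha, ← lcs_mem_iff]
      exact commutator_mem_commutator (ih a ha) (mem_top b)
    | one => rw [one_pow]; exact one_mem _
    | mul x y hx' _ hx hy => exact lcs_pow_mul (i + 1) e x y hx' hx hy
    | inv x _ hx => rw [inv_pow]; exact inv_mem hx

/-- In a nilpotent group generated by elements with `x ^ e = 1`, every element is killed by a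
power of `e`. -/
theorem exists_pow_pow_eq_one [Group.IsNilpotent G] (S : Set G) (hS : closure S = ⊤) (e : ℕ)
    (he : ∀ x ∈ S, x ^ e = 1) : ∃ c : ℕ, ∀ x : G, x ^ (e ^ c) = 1 := by
  obtain ⟨c, hc⟩ := Subgroup.nilpotent_iff_lowerCentralSeries.1 (inferInstance : Group.IsNilpotent G)
  refine ⟨c, fun x => ?_⟩
  have key : ∀ i : ℕ, x ^ (e ^ i) ∈ (⊤ : Subgroup G).lowerCentralSeries i := by
    intro i
    induction i with
    | zero => simp
    | succ i ih =>
      rw [pow_succ, pow_mul]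
      exact pow_mem_lcs S hS e he i _ ih
  have := key c
  rw [hc] at this
  exact mem_bot.1 this

end nilp

/-- The set of elements of `G` whose order is finite with all prime factors in `π`. -/
def piElt {G : Type*} [Group G] (π : Set ℕ) (g : G) : Prop :=
  ∃ m : ℕ, m ≠ 0 ∧ (∀ p : ℕ, p.Prime → p ∣ m → p ∈ π) ∧ g ^ m = 1

section torsion

variable {G : Type*} [Group G]

open Subgroup

theorem piElt_mul (hG : LocallyNilpotent G) (π : Set ℕ) {g h : G} (hg : piElt π g)
    (hh : piElt π h) : piElt π (g * h) := by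
  classical
  obtain ⟨m, hm0, hm, hgm⟩ := hg
  obtain ⟨k, hk0, hk, hhk⟩ := hh
  set H : Subgroup G := closure ({g, h} : Set G) with hH
  have hfg : H.FG := ⟨{g, h}, by simp [hH]⟩
  have : Group.IsNilpotent H := hG H hfg
  have hgH : g ∈ H := subset_closure (by simp)
  have hhH : h ∈ H := subset_closure (by simp)
  have hclos : closure ({⟨g, hgH⟩, ⟨h, hhH⟩} : Set H) = ⊤ := by
    apply Subgroup.map_injective H.subtype_injective
    rw [MonoidHom.map_closure]
    simp only [Set.image_insert_eq, Set.image_singleton, subtype_apply, ← hH]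
    rw [← MonoidHom.range_eq_map, range_subtype]
  obtain ⟨c, hc⟩ := exists_pow_pow_eq_one (G := H) _ hclos (m * k) (by
    intro x hx
    rcases hx with rfl | hx
    · ext; simp [pow_mul, hgm]
    · rw [Set.mem_singleton_iff] at hx
      subst hx
      ext; rw [mul_comm]; simp [pow_mul, hhk])
  refine ⟨(m * k) ^ c, by positivity, ?_, ?_⟩
  · intro p hp hpd
    rcases (hp.dvd_mul).1 (hp.dvd_of_dvd_pow hpd) with h1 | h1
    · exact hm p hp h1
    · exact hk p hp h1
  · have := hc (⟨g, hgH⟩ * ⟨h, hhH⟩)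
    have h2 := congrArg (fun x : H => (x : G)) this
    simpa using h2

/-- The `π`-torsion subgroup of a locally nilpotent group. -/
def piTorsion (hG : LocallyNilpotent G) (π : Set ℕ) : Subgroup G where
  carrier := {g | piElt π g}
  mul_mem' := fun ha hb => piElt_mul hG π ha hb
  one_mem' := ⟨1, one_ne_zero, fun p hp h => absurd (Nat.dvd_one.1 h) hp.one_lt.ne', by simp⟩
  inv_mem' := by
    rintro x ⟨m, hm0, hm, hx⟩
    exact ⟨m, hm0, hm, by rw [inv_pow, hx, inv_one]⟩

theorem mem_piTorsion (hG : LocallyNilpotent G) (π : Set ℕ) (g : G) :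
    g ∈ piTorsion hG π ↔ piElt π g := Iff.rfl

instance piTorsion_normal (hG : LocallyNilpotent G) (π : Set ℕ) :
    (piTorsion hG π).Normal := by
  constructor
  rintro x ⟨m, hm0, hm, hx⟩ g
  exact ⟨m, hm0, hm, by rw [conj_pow, hx]; simp⟩

theorem locallyNilpotent_quotient (hG : LocallyNilpotent G) (N : Subgroup G) [N.Normal] :
    LocallyNilpotent (G ⧸ N) := by
  intro H hH
  obtain ⟨S, hS⟩ := hH
  classical
  -- lift the generators
  set S' : Finset G := S.image Quotient.out with hS'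
  have hnil := hG (closure (S' : Set G)) ⟨S', rfl⟩
  have hmap : (closure (S' : Set G)).map (QuotientGroup.mk' N) = H := by
    rw [MonoidHom.map_closure, ← hS]
    congr 1
    ext x
    simp only [hS', Finset.coe_image, Set.mem_image, Finset.mem_coe]
    constructor
    · rintro ⟨y, ⟨z, hz, rfl⟩, rfl⟩
      simpa using hz
    · intro hx
      exact ⟨Quotient.out x, ⟨x, hx, rfl⟩, by simp⟩
  rw [← hmap]
  exact Group.nilpotent_of_surjective
    ((QuotientGroup.mk' N).subgroupMap (closure (S' : Set G)))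
    ((QuotientGroup.mk' N).subgroupMap_surjective _)

theorem engelWord_map {H : Type*} [Group H] (f : G →* H) (n : ℕ) (x y : G) :
    engelWord n (f x) (f y) = f (engelWord n x y) := by
  induction n with
  | zero => rfl
  | succ n ih => simp [engelWord, comm, ih]

theorem isEngel_quotient {n : ℕ} (hG : IsEngel n G) (N : Subgroup G) [N.Normal] :
    IsEngel n (G ⧸ N) := by
  intro x y
  obtain ⟨x, rfl⟩ := QuotientGroup.mk'_surjective N x
  obtain ⟨y, rfl⟩ := QuotientGroup.mk'_surjective N y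
  rw [engelWord_map, hG, map_one]

theorem quotient_no_torsion (hG : LocallyNilpotent G) (π : Set ℕ) (p : ℕ)
    (hpp : p.Prime) (hp : p ∈ π) (g : G ⧸ piTorsion hG π) : orderOf g ≠ p := by
  intro hg
  obtain ⟨x, rfl⟩ := QuotientGroup.mk'_surjective (piTorsion hG π) g
  have h1 : (QuotientGroup.mk' (piTorsion hG π) x) ^ p = 1 := by
    rw [← hg]; exact pow_orderOf_eq_one _
  rw [← map_pow, ← MonoidHom.mem_ker, QuotientGroup.ker_mk', mem_piTorsion] at h1
  obtain ⟨m, hm0, hm, hx⟩ := h1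
  have h2 : x ∈ piTorsion hG π := by
    refine ⟨p * m, mul_ne_zero hpp.ne_zero hm0, ?_, by rw [pow_mul, hx]⟩
    intro q hq hqd
    rcases (hq.dvd_mul).1 hqd with h | h
    · rw [(Nat.prime_dvd_prime_iff_eq hq hpp).1 h]; exact hp
    · exact hm q hq h
  rw [← QuotientGroup.ker_mk' (piTorsion hG π), MonoidHom.mem_ker] at h2
  rw [h2, orderOf_one] at hg
  exact hpp.one_lt.ne hg

end torsion

/-- Supersets of sufficient sets are sufficient. -/
theorem Sufficient.mono.{u} {n : ℕ} {π₁ π₂ : Set ℕ} (h : π₁ ⊆ π₂)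
    (h1 : Sufficient.{u} n π₁) : Sufficient.{u} n π₂ :=
  fun G _ hG hE ht => h1 G hG hE fun p hp => ht p (h hp)

/-- The intersection of two sufficient sets of primes is sufficient. -/
theorem Sufficient.inter.{u} {n : ℕ} {π₁ π₂ : Set ℕ} (hp1 : ∀ p ∈ π₁, p.Prime)
    (hp2 : ∀ p ∈ π₂, p.Prime)
    (h1 : Sufficient.{u} n π₁) (h2 : Sufficient.{u} n π₂) : Sufficient.{u} n (π₁ ∩ π₂) := by
  intro G _ hG hE ht
  have n1 : Group.IsNilpotent (G ⧸ piTorsion hG π₁) :=
    h1 _ (locallyNilpotent_quotient hG _) (isEngel_quotient hE _)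
      fun p hp g => quotient_no_torsion hG π₁ p (hp1 p hp) hp g
  have n2 : Group.IsNilpotent (G ⧸ piTorsion hG π₂) :=
    h2 _ (locallyNilpotent_quotient hG _) (isEngel_quotient hE _)
      fun p hp g => quotient_no_torsion hG π₂ p (hp2 p hp) hp g
  set f : G →* (G ⧸ piTorsion hG π₁) × (G ⧸ piTorsion hG π₂) :=
    (QuotientGroup.mk' (piTorsion hG π₁)).prod (QuotientGroup.mk' (piTorsion hG π₂)) with hf
  apply Subgroup.isNilpotent_of_ker_le_center f
  intro x hx
  rw [MonoidHom.mem_ker, hf, MonoidHom.prod_apply, Prod.mk_eq_one] at hx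
  obtain ⟨hx1, hx2⟩ := hx
  rw [← MonoidHom.mem_ker, QuotientGroup.ker_mk', mem_piTorsion] at hx1 hx2
  obtain ⟨m, hm0, hm, hxm⟩ := hx1
  obtain ⟨k, hk0, hk, hxk⟩ := hx2
  -- `x` has order dividing `m` and `k`, so `x = 1`
  have hx1 : x = 1 := by
    by_contra hne
    have ho : orderOf x ≠ 1 := fun h => hne (orderOf_eq_one_iff.1 h)
    obtain ⟨p, hp, hpd⟩ := Nat.exists_prime_and_dvd ho
    have hpm : p ∣ m := hpd.trans (orderOf_dvd_of_pow_eq_one hxm)
    have hpk : p ∣ k := hpd.trans (orderOf_dvd_of_pow_eq_one hxk)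
    have hfin : orderOf x ≠ 0 := by
      intro h0
      have := orderOf_dvd_of_pow_eq_one hxm
      rw [h0, zero_dvd_iff] at this
      exact hm0 this
    obtain ⟨t, ht'⟩ := hpd
    have ht0 : t ≠ 0 := by rintro rfl; simp [ht'] at hfin
    have : orderOf (x ^ t) = p := by
      rw [orderOf_pow_of_dvd ht0 ⟨p, by rw [ht', mul_comm]⟩, ht', mul_comm,
        Nat.mul_div_cancel_left _ (Nat.pos_of_ne_zero ht0)]
    exact ht p ⟨hm p hp hpm, hk p hp hpk⟩ _ this
  rw [hx1]
  exact Subgroup.one_mem _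

/-- If some finite set of primes is sufficient, then the set of the primes that lie in every
sufficient set is sufficient. -/
theorem core_sufficient.{u} {n : ℕ} (hfin : ∃ π : Set ℕ, π.Finite ∧ (∀ p ∈ π, p.Prime) ∧
    Sufficient.{u} n π) :
    Sufficient.{u} n {p : ℕ | ∀ σ : Set ℕ, (∀ q ∈ σ, q.Prime) → Sufficient.{u} n σ → p ∈ σ} := by
  obtain ⟨π, hπf, hπp, hπ⟩ := hfin
  classical
  -- remove the superfluous primes one by one
  have key : ∀ F : Finset ℕ, (∀ p ∈ F, ∃ σ : Set ℕ, (∀ q ∈ σ, q.Prime) ∧ Sufficient.{u} n σ ∧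
      p ∉ σ) → Sufficient.{u} n (π \ (F : Set ℕ)) := by
    intro F
    induction F using Finset.induction_on with
    | empty => intro _; simpa using hπ
    | insert a F ha ih =>
      intro hF
      have h1 := ih fun p hp => hF p (Finset.mem_insert_of_mem hp)
      obtain ⟨σ, hσp, hσ, haσ⟩ := hF a (Finset.mem_insert_self a F)
      refine Sufficient.mono ?_ (Sufficient.inter (fun p hp => hπp p hp.1) hσp h1 hσ)
      rintro p ⟨⟨hp1, hp2⟩, hp3⟩
      refine ⟨hp1, ?_⟩
      rw [Finset.coe_insert, Set.mem_insert_iff, not_or]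
      exact ⟨fun h => haσ (h ▸ hp3), hp2⟩
  set F : Finset ℕ := hπf.toFinset.filter (fun p => ∃ σ : Set ℕ, (∀ q ∈ σ, q.Prime) ∧
    Sufficient.{u} n σ ∧ p ∉ σ) with hF
  refine Sufficient.mono ?_ (key F fun p hp => (Finset.mem_filter.1 hp).2)
  rintro p ⟨hp1, hp2⟩ σ hσp hσ
  by_contra hpσ
  exact hp2 (Finset.mem_coe.2 (Finset.mem_filter.2 ⟨hπf.mem_toFinset.2 hp1, σ, hσp, hσ, hpσ⟩))

end Pool.Agent.Lib.MP_cd48d2_al
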