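import Mathlib
import Pool.Agent.Lib.MP_cd48d2_al.Filter

namespace Pool.Agent.Lib.MP_cd48d2_al

open Subgroup
open scoped commutatorElement

section iter

variable {G : Type*} [Group G]

/-- The left-normed commutator `[x, y 0, ..., y (i-1)]`. -/
def iterComm (x : G) (y : ℕ → G) : ℕ → G
  | 0 => x
  | i + 1 => ⁅iterComm x y i, y i⁆

/-- All left-normed commutators of weight `c + 1` vanish. -/
def ClassLE (c : ℕ) (G : Type*) [Group G] : Prop := ∀ (x : G) (y : ℕ → G), iterComm x y c = 1

theorem iterComm_succ' (x : G) (y : ℕ → G) (i : ℕ) :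
    iterComm x y (i + 1) = iterComm ⁅x, y 0⁆ (fun j => y (j + 1)) i := by
  induction i with
  | zero => rfl
  | succ i ih => rw [iterComm, ih]; rfl

theorem iterComm_map {H : Type*} [Group H] (f : G →* H) (x : G) (y : ℕ → G) (i : ℕ) :
    iterComm (f x) (fun j => f (y j)) i = f (iterComm x y i) := by
  induction i with
  | zero => rfl
  | succ i ih => rw [iterComm, ih, iterComm, map_commutatorElement]

theorem iterComm_congr (x : G) (y y' : ℕ → G) (c : ℕ) (h : ∀ i < c, y i = y' i) :
    iterComm x y c = iterComm x y' c := by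
  induction c with
  | zero => rfl
  | succ c ih =>
    rw [iterComm, iterComm, ih fun i hi => h i (by omega), h c (by omega)]

theorem mem_ucs_of_iterComm (i : ℕ) : ∀ x : G, (∀ y : ℕ → G, iterComm x y i = 1) →
    x ∈ Subgroup.upperCentralSeries G i := by
  induction i with
  | zero => intro x hx; exact mem_bot.2 (hx fun _ => 1)
  | succ i ih =>
    intro x hx
    rw [Subgroup.mem_upperCentralSeries_succ_iff]
    intro h
    apply ih
    intro y
    have := hx (fun j => if j = 0 then h else y (j - 1))
    rw [iterComm_succ'] at this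
    simpa using this

theorem iterComm_of_mem_ucs (i : ℕ) : ∀ (x : G) (y : ℕ → G), x ∈ Subgroup.upperCentralSeries G i →
    iterComm x y i = 1 := by
  induction i with
  | zero => intro x y hx; exact mem_bot.1 hx
  | succ i ih =>
    intro x y hx
    rw [iterComm_succ']
    exact ih _ _ (Subgroup.mem_upperCentralSeries_succ_iff.1 hx _)

theorem classLE_iff_ucs (c : ℕ) : ClassLE c G ↔ Subgroup.upperCentralSeries G c = ⊤ := by
  constructor
  · intro h
    rw [eq_top_iff]
    intro x _
    exact mem_ucs_of_iterComm c x (h x)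
  · intro h x y
    apply iterComm_of_mem_ucs
    rw [h]; trivial

theorem ClassLE.isNilpotent {c : ℕ} (h : ClassLE c G) : Group.IsNilpotent G :=
  ⟨c, (classLE_iff_ucs c).1 h⟩

theorem classLE_iff_nilpotencyClass [Group.IsNilpotent G] (c : ℕ) :
    ClassLE c G ↔ Group.nilpotencyClass G ≤ c := by
  rw [classLE_iff_ucs, Subgroup.upperCentralSeries_eq_top_iff_nilpotencyClass_le]

theorem ClassLE.of_injective {H : Type*} [Group H] {c : ℕ} (h : ClassLE c G) (f : H →* G)
    (hf : Function.Injective f) : ClassLE c H := by
  intro x y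
  apply hf
  rw [map_one, ← iterComm_map]
  exact h _ _

/-- No element of order `p`. -/
def NoTors (p : ℕ) (G : Type*) [Group G] : Prop := ∀ g : G, g ^ p = 1 → g = 1

theorem noTors_iff {p : ℕ} (hp : p.Prime) : NoTors p G ↔ ∀ g : G, orderOf g ≠ p := by
  constructor
  · intro h g hg
    have h1 : g ^ p = 1 := by rw [← hg]; exact pow_orderOf_eq_one g
    rw [h g h1, orderOf_one] at hg
    exact hp.one_lt.ne hg
  · intro h g hg
    by_contra hne
    have : Fact p.Prime := ⟨hp⟩
    exact h g (orderOf_eq_prime hg hne)

theorem NoTors.of_injective {H : Type*} [Group H] {p : ℕ} (h : NoTors p G) (f : H →* G)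
    (hf : Function.Injective f) : NoTors p H := by
  intro g hg
  apply hf
  rw [map_one]
  apply h
  rw [← map_pow, hg, map_one]

theorem NoTors.pow {p : ℕ} (h : NoTors p G) (k : ℕ) : NoTors (p ^ k) G := by
  induction k with
  | zero => intro g hg; simpa using hg
  | succ k ih =>
    intro g hg
    rw [pow_succ, pow_mul] at hg
    exact ih g (h _ hg)

theorem comm_pow_of_commute (a b : G) (h : Commute ⁅a, b⁆ a) (k : ℕ) :
    ⁅a ^ k, b⁆ = ⁅a, b⁆ ^ k := by
  induction k with
  | zero => simp
  | succ k ih =>
    have h1 : ⁅a ^ (k + 1), b⁆ = a * ⁅a ^ k, b⁆ * a⁻¹ * ⁅a, b⁆ := by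
      rw [pow_succ']
      simp only [commutatorElement_def]
      group
    rw [h1, ih, pow_succ]
    have h2 : a * ⁅a, b⁆ ^ k * a⁻¹ = ⁅a, b⁆ ^ k := by
      rw [← (h.pow_left k).eq]; group
    rw [h2]

/-- Commutators with powers modulo the upper central series. -/
theorem ucs_comm_pow (i : ℕ) (a b : G) (ha : a ∈ Subgroup.upperCentralSeries G (i + 2)) (k : ℕ) :
    ⁅a ^ k, b⁆ ∈ Subgroup.upperCentralSeries G i ↔ ⁅a, b⁆ ^ k ∈ Subgroup.upperCentralSeries G i := by
  have key : QuotientGroup.mk' (Subgroup.upperCentralSeries G i) ⁅a ^ k, b⁆ =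
      QuotientGroup.mk' (Subgroup.upperCentralSeries G i) (⁅a, b⁆ ^ k) := by
    rw [map_commutatorElement, map_pow, map_pow, map_commutatorElement]
    apply comm_pow_of_commute
    have h1 : ⁅a, b⁆ ∈ Subgroup.upperCentralSeries G (i + 1) := Subgroup.mem_upperCentralSeries_succ_iff.1 ha b
    have h2 : ⁅⁅a, b⁆, a⁆ ∈ Subgroup.upperCentralSeries G i := Subgroup.mem_upperCentralSeries_succ_iff.1 h1 a
    rw [← QuotientGroup.ker_mk' (Subgroup.upperCentralSeries G i), MonoidHom.mem_ker,
      map_commutatorElement, map_commutatorElement] at h2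
    exact commutatorElement_eq_one_iff_commute.1 h2
  rw [← QuotientGroup.ker_mk' (Subgroup.upperCentralSeries G i), MonoidHom.mem_ker, MonoidHom.mem_ker, key]

/-- If `G` has no element of order `p`, the factors of the upper central series have none. -/
theorem ucs_isolated_step {p : ℕ} (h : NoTors p G) (i : ℕ) :
    ∀ a ∈ Subgroup.upperCentralSeries G (i + 1), a ^ p ∈ Subgroup.upperCentralSeries G i →
      a ∈ Subgroup.upperCentralSeries G i := by
  induction i with
  | zero => intro a _ hp; exact mem_bot.2 (h a (mem_bot.1 hp))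
  | succ i ih =>
    intro a ha hp
    rw [Subgroup.mem_upperCentralSeries_succ_iff]
    intro b
    apply ih _ (Subgroup.mem_upperCentralSeries_succ_iff.1 ha b)
    rw [← ucs_comm_pow i a b ha]
    exact Subgroup.mem_upperCentralSeries_succ_iff.1 hp b

/-- In a nilpotent group without elements of order `p`, the upper central series is
`p`-isolated. -/
theorem ucs_isolated [hG : Group.IsNilpotent G] {p : ℕ} (h : NoTors p G) (i : ℕ) (a : G)
    (ha : a ^ p ∈ Subgroup.upperCentralSeries G i) : a ∈ Subgroup.upperCentralSeries G i := by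
  obtain ⟨c, hc⟩ := hG
  have key : ∀ j : ℕ, a ∈ Subgroup.upperCentralSeries G (i + j) → a ∈ Subgroup.upperCentralSeries G i := by
    intro j
    induction j with
    | zero => exact id
    | succ j ih =>
      intro hj
      exact ih (ucs_isolated_step h (i + j) a hj (Subgroup.upperCentralSeries_mono G (by omega) ha))
  apply key c
  have : Subgroup.upperCentralSeries G c ≤ Subgroup.upperCentralSeries G (i + c) :=
    Subgroup.upperCentralSeries_mono G (by omega)
  apply this
  rw [hc]; trivial

theorem noTors_quotient_center [Group.IsNilpotent G] {p : ℕ} (h : NoTors p G) :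
    NoTors p (G ⧸ center G) := by
  intro g hg
  obtain ⟨x, rfl⟩ := QuotientGroup.mk'_surjective (center G) g
  rw [← map_pow, ← MonoidHom.mem_ker, QuotientGroup.ker_mk', ← Subgroup.upperCentralSeries_one] at hg
  rw [← MonoidHom.mem_ker, QuotientGroup.ker_mk', ← Subgroup.upperCentralSeries_one]
  exact ucs_isolated h 1 x hg

end iter

theorem IsEngel.of_injective {G H : Type*} [Group G] [Group H] {n : ℕ} (h : IsEngel n G)
    (f : H →* G) (hf : Function.Injective f) : IsEngel n H := by
  intro x y
  apply hf
  rw [map_one, ← engelWord_map]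
  exact h _ _

/-- Cutting down the class. -/
theorem exists_class_eq.{u} (n c : ℕ) (π : Set ℕ) (d : ℕ) : ∀ (G : Type u) [Group G],
    Group.IsNilpotent G → IsEngel n G → (∀ p ∈ π, NoTors p G) → Group.nilpotencyClass G = d →
    c < d → ∃ (H : Type u) (_ : Group H), Group.IsNilpotent H ∧ IsEngel n H ∧
      (∀ p ∈ π, NoTors p H) ∧ Group.nilpotencyClass H = c + 1 := by
  induction d with
  | zero => intro G _ _ _ _ _ h; omega
  | succ d ih =>
    intro G _ hG hE hT hd hcd
    by_cases h : c = d
    · exact ⟨G, inferInstance, hG, hE, hT, by rw [hd, h]⟩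
    · exact ih (G ⧸ center G) inferInstance (isEngel_quotient hE _)
        (fun p hp => noTors_quotient_center (hT p hp))
        (by rw [Group.nilpotencyClass_quotient_center, hd]; rfl) (by omega)

/-- The subgroup of finitely supported elements. -/
def finSupp {ι : Type*} (G : ι → Type*) [∀ k, Group (G k)] : Subgroup (∀ k, G k) where
  carrier := {f | {k | f k ≠ 1}.Finite}
  mul_mem' := by
    intro a b ha hb
    refine (Set.Finite.union ha hb).subset ?_
    intro k hk
    by_contra hcon
    rw [Set.mem_union, not_or] at hcon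
    simp only [Set.mem_ofPred_eq, not_not] at hcon hk
    rw [Pi.mul_apply, hcon.1, hcon.2, mul_one] at hk
    exact hk rfl
  one_mem' := by simp
  inv_mem' := by
    intro a ha
    simpa using ha

theorem mem_finSupp {ι : Type*} (G : ι → Type*) [∀ k, Group (G k)] (f : ∀ k, G k) :
    f ∈ finSupp G ↔ {k | f k ≠ 1}.Finite := Iff.rfl

instance finSupp_normal {ι : Type*} (G : ι → Type*) [∀ k, Group (G k)] :
    (finSupp G).Normal := by
  constructor
  intro f hf g
  rw [mem_finSupp] at hf ⊢
  refine hf.subset ?_
  intro k hk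
  simp only [Set.mem_ofPred_eq, Pi.mul_apply, Pi.inv_apply] at hk ⊢
  intro h
  apply hk
  rw [h]; simp

theorem locallyNilpotent_finSupp {ι : Type*} (G : ι → Type*) [∀ k, Group (G k)]
    (hG : ∀ k, Group.IsNilpotent (G k)) : LocallyNilpotent (finSupp G) := by
  classical
  intro H hH
  obtain ⟨S, hS⟩ := hH
  set F : Set ι := ⋃ s ∈ S, {k | (s : ∀ k, G k) k ≠ 1} with hF
  have hFf : F.Finite := Set.Finite.biUnion S.finite_toSet fun s _ => s.2
  have : Finite F := hFf
  have hsupp : ∀ h ∈ H, ∀ k, k ∉ F → (h : ∀ k, G k) k = 1 := by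
    intro h hh k hk
    rw [← hS] at hh
    induction hh using closure_induction with
    | mem x hx =>
      by_contra hne
      exact hk (Set.mem_biUnion hx hne)
    | one => rfl
    | mul x y _ _ hx hy =>
      rw [Subgroup.coe_mul, Pi.mul_apply, hx, hy, mul_one]
    | inv x _ hx =>
      rw [Subgroup.coe_inv, Pi.inv_apply, hx, inv_one]
  let φ : H →* (∀ k : F, G k) :=
    { toFun := fun h k => (h : finSupp G).1 k
      map_one' := rfl
      map_mul' := fun _ _ => rfl }
  have hinj : φ.ker ≤ center H := by
    intro h hh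
    have : h = 1 := by
      ext k
      by_cases hk : k ∈ F
      · exact congrFun (MonoidHom.mem_ker.1 hh) ⟨k, hk⟩
      · exact hsupp h h.2 k hk
    rw [this]; exact one_mem _
  exact Subgroup.isNilpotent_of_ker_le_center φ hinj

theorem isEngel_pi {ι : Type*} (G : ι → Type*) [∀ k, Group (G k)] {n : ℕ}
    (hG : ∀ k, IsEngel n (G k)) : IsEngel n (∀ k, G k) := by
  intro x y
  funext k
  have := engelWord_map (Pi.evalMonoidHom G k) n x y
  simp only [Pi.evalMonoidHom_apply] at this
  rw [← this, Pi.one_apply]
  exact hG k _ _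

/-- The uniform bound. -/
def Bound.{u} (n : ℕ) (π : Set ℕ) (c : ℕ) : Prop := ∀ (G : Type u) [Group G],
  Group.IsNilpotent G → IsEngel n G → (∀ p ∈ π, NoTors p G) → ClassLE c G

theorem sufficient_iff_bound.{u} (n : ℕ) (π : Set ℕ) (hπ : ∀ p ∈ π, p.Prime) :
    Sufficient.{u} n π ↔ ∃ c, Bound.{u} n π c := by
  constructor
  · intro h
    by_contra hcon
    push Not at hcon
    unfold Bound at hcon
    push Not at hcon
    choose G hGr hnil hE hT hC using hcon
    have hP : Group.IsNilpotent (finSupp G) := by
      apply h _ (locallyNilpotent_finSupp G hnil)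
      · exact (isEngel_pi G hE).of_injective (finSupp G).subtype (finSupp G).subtype_injective
      · intro p hp
        rw [← noTors_iff (hπ p hp)]
        intro f hf
        ext k
        apply hT k p hp
        have := congrFun (congrArg (fun x : finSupp G => (x : ∀ k, G k)) hf) k
        simpa using this
    obtain ⟨c, hc⟩ := hP
    rw [← classLE_iff_ucs] at hc
    apply hC c
    classical
    -- embed `G c`
    let ψ : G c →* finSupp G :=
      { toFun := fun x => ⟨Pi.mulSingle c x, by
          rw [mem_finSupp]
          refine (Set.finite_singleton c).subset ?_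
          intro k hk
          by_contra hne
          apply hk
          exact Pi.mulSingle_eq_of_ne hne x⟩
        map_one' := by ext k; simp
        map_mul' := fun x y => by ext k; simp [Pi.mulSingle_mul] }
    refine hc.of_injective ψ ?_
    intro x y hxy
    have := congrArg (fun f : finSupp G => (f : ∀ k, G k) c) hxy
    simpa [ψ] using this
  · rintro ⟨c, hc⟩ G _ hG hE hT
    have : ClassLE c G := by
      intro x y
      classical
      set H : Subgroup G := closure (insert x ((Finset.range c).image y : Finset G)) with hH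
      have hfg : H.FG := ⟨insert x ((Finset.range c).image y), by
        rw [hH]; simp⟩
      have hnil := hG H hfg
      have hb := hc H hnil (hE.of_injective H.subtype H.subtype_injective)
        (fun p hp => ((noTors_iff (hπ p hp)).2 (hT p hp)).of_injective H.subtype
          H.subtype_injective)
      have hx : x ∈ H := subset_closure (Set.mem_insert _ _)
      have hy : ∀ i < c, y i ∈ H := fun i hi => subset_closure (Set.mem_insert_of_mem _
        (Finset.mem_coe.2 (Finset.mem_image_of_mem _ (Finset.mem_range.2 hi))))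
      set y' : ℕ → H := fun i => if h : i < c then ⟨y i, hy i h⟩ else 1 with hy'
      have h1 := hb ⟨x, hx⟩ y'
      have h2 := iterComm_map H.subtype ⟨x, hx⟩ y' c
      rw [h1, map_one] at h2
      rw [← h2]
      apply iterComm_congr
      intro i hi
      simp [hy', hi]
    exact this.isNilpotent

/-- Compactness: if the set of all primes is sufficient, some finite set is. -/
theorem exists_finite_sufficient.{u} (n : ℕ) (h : Sufficient.{u} n {p | p.Prime}) :
    ∃ π : Set ℕ, π.Finite ∧ (∀ p ∈ π, p.Prime) ∧ Sufficient.{u} n π := by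
  rw [sufficient_iff_bound n {p | p.Prime} (fun p hp => hp)] at h
  obtain ⟨c, hc⟩ := h
  by_contra hcon
  push Not at hcon
  have hk : ∀ k : ℕ, ∃ (H : Type u) (_ : Group H), Group.IsNilpotent H ∧ IsEngel n H ∧
      (∀ p ∈ {p : ℕ | p.Prime ∧ p < k}, NoTors p H) ∧ Group.nilpotencyClass H = c + 1 := by
    intro k
    have h1 := hcon {p : ℕ | p.Prime ∧ p < k} ((Set.finite_lt_nat k).subset fun p hp => hp.2)
      (fun p hp => hp.1)
    rw [sufficient_iff_bound n _ (fun p hp => hp.1)] at h1
    push Not at h1
    have h2 := h1 c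
    unfold Bound at h2
    push Not at h2
    obtain ⟨G, hGr, hnil, hE, hT, hC⟩ := h2
    rw [classLE_iff_nilpotencyClass, not_le] at hC
    exact exists_class_eq n c _ _ G hnil hE hT rfl hC
  choose G hGr hnil hE hT hC using hk
  have hle : ∀ k, ClassLE (c + 1) (G k) := fun k => (classLE_iff_nilpotencyClass _).2 (hC k).le
  have hnot : ∀ k, ∃ (x : G k) (y : ℕ → G k), iterComm x y c ≠ 1 := by
    intro k
    by_contra hcon
    push Not at hcon
    have := (classLE_iff_nilpotencyClass (G := G k) c).1 hcon
    rw [hC k] at this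
    omega
  choose x y hxy using hnot
  have hpi : ClassLE (c + 1) (∀ k, G k) := by
    intro x y
    funext k
    have := iterComm_map (Pi.evalMonoidHom G k) x y (c + 1)
    simp only [Pi.evalMonoidHom_apply] at this
    rw [← this, Pi.one_apply]
    exact hle k _ _
  have hPnil : Group.IsNilpotent (∀ k, G k) := hpi.isNilpotent
  have hQ := hc ((∀ k, G k) ⧸ finSupp G) inferInstance
    (isEngel_quotient (isEngel_pi G hE) _) (by
      intro p hp f hf
      obtain ⟨f, rfl⟩ := QuotientGroup.mk'_surjective (finSupp G) f
      rw [← map_pow, ← MonoidHom.mem_ker, QuotientGroup.ker_mk', mem_finSupp] at hf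
      rw [← MonoidHom.mem_ker, QuotientGroup.ker_mk', mem_finSupp]
      refine (hf.union (Set.finite_le_nat p)).subset ?_
      intro k hk
      by_contra hcon
      rw [Set.mem_union, not_or] at hcon
      simp only [Set.mem_ofPred_eq, not_not, not_le, Pi.pow_apply] at hcon hk
      exact hk (hT k p ⟨hp, hcon.2⟩ _ hcon.1))
  have h1 := hQ (QuotientGroup.mk' (finSupp G) x) (fun i => QuotientGroup.mk' (finSupp G)
    fun k => y k i)
  rw [iterComm_map, ← MonoidHom.mem_ker, QuotientGroup.ker_mk', mem_finSupp] at h1
  have h2 : {k | iterComm x (fun i k => y k i) c k ≠ 1} = Set.univ := by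
    ext k
    simp only [Set.mem_ofPred_eq, Set.mem_univ, iff_true]
    have := iterComm_map (Pi.evalMonoidHom G k) x (fun i k => y k i) c
    simp only [Pi.evalMonoidHom_apply] at this
    rw [← this]
    exact hxy k
  rw [h2] at h1
  exact Set.infinite_univ h1

end Pool.Agent.Lib.MP_cd48d2_al
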