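import Mathlib
import Pool.Agent.Lib.MP_cd48d2_al.ClassBound

namespace Pool.Agent.Lib.MP_cd48d2_al

open scoped commutatorElement

/-- A finitely generated torsion group with `derivedSeries G n = ⊥` is finite. -/
theorem finite_of_derived.{u} (n : ℕ) : ∀ (G : Type u) [Group G] [Group.FG G],
    IsMulTorsion G → derivedSeries G n = ⊥ → Finite G := by
  induction n with
  | zero =>
    intro G _ _ _ h
    rw [derivedSeries_zero] at h
    have : Subsingleton G := by
      rw [← Subgroup.subsingleton_iff]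
      exact subsingleton_of_bot_eq_top h.symm
    infer_instance
  | succ n ih =>
    intro G _ _ hT h
    have h1 : Finite (Abelianization G) := by
      have : Group.FG (Abelianization G) :=
        Group.fg_of_surjective (f := Abelianization.of) (QuotientGroup.mk'_surjective _)
      apply CommGroup.finite_of_fg_isMulTorsion
      intro x
      obtain ⟨y, rfl⟩ := QuotientGroup.mk'_surjective _ x
      exact MonoidHom.isOfFinOrder _ (hT y)
    have h2 : (commutator G).FiniteIndex := by
      have : Finite (G ⧸ commutator G) := h1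
      exact Subgroup.finiteIndex_of_finite_quotient
    have h3 : Group.FG (commutator G) := Subgroup.fg_of_index_ne_zero _
    have h4 : Finite (commutator G) := by
      apply ih
      · intro x
        have := hT (x : G)
        exact (Submonoid.isOfFinOrder_coe (H := (commutator G).toSubmonoid)).1 this
      · have key : ∀ i : ℕ, (derivedSeries (commutator G) i).map (commutator G).subtype ≤
            derivedSeries G (i + 1) := by
          intro i
          induction i with
          | zero =>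
            rw [derivedSeries_one]
            exact Subgroup.map_subtype_le _
          | succ i ih =>
            rw [derivedSeries_succ, Subgroup.map_commutator, derivedSeries_succ G (i + 1)]
            exact Subgroup.commutator_mono ih ih
        have := key n
        rw [h, le_bot_iff, Subgroup.map_eq_bot_iff_of_injective _
          (commutator G).subtype_injective] at this
        exact this
    have h5 : Finite (G ⧸ commutator G) := h1
    exact Finite.of_equiv _ (Subgroup.groupEquivQuotientProdSubgroup (s := commutator G)).symm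

theorem finite_of_fg_nilpotent_torsion {G : Type*} [Group G] [Group.FG G]
    [Group.IsNilpotent G] (hT : IsMulTorsion G) : Finite G := by
  obtain ⟨n, hn⟩ := (Group.isSolvable_def G).1 (inferInstance : Group.IsSolvable G)
  exact finite_of_derived n G hT hn

section ppart

variable {K : Type*} [Group K] {p : ℕ}

theorem noTors_coprime (hp : p.Prime) (hT : ∀ q : ℕ, q.Prime → q ≠ p → NoTors q K) (m : ℕ) :
    m.Coprime p → NoTors m K := by
  induction m using Nat.recOnMul with
  | zero =>
    intro h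
    rw [Nat.coprime_zero_left] at h
    exact absurd h hp.one_lt.ne'
  | one => intro _ g hg; simpa using hg
  | prime q hq =>
    intro h
    apply hT q hq
    rintro rfl
    rw [Nat.coprime_self] at h
    exact hq.one_lt.ne' h
  | mul a b ha hb =>
    intro h g hg
    rw [mul_comm, pow_mul] at hg
    exact hb (Nat.Coprime.coprime_mul_left h) g (ha (Nat.Coprime.coprime_mul_right h) _ hg)

theorem exists_pPow (hp : p.Prime) (hT : ∀ q : ℕ, q.Prime → q ≠ p → NoTors q K) (x : K)
    (hx : IsOfFinOrder x) : ∃ a : ℕ, x ^ p ^ a = 1 := by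
  have ho : orderOf x ≠ 0 := orderOf_ne_zero_iff.2 hx
  obtain ⟨a, b, hb, hab⟩ := Nat.exists_eq_pow_mul_and_not_dvd ho p hp.ne_one
  refine ⟨a, ?_⟩
  apply noTors_coprime hp hT b ((Nat.Prime.coprime_iff_not_dvd hp).2 hb).symm
  rw [← pow_mul, ← hab]
  exact pow_orderOf_eq_one x

/-- The `p'`-isolator of a central element, inside the centre. -/
def isolator (p : ℕ) (z : K) : Subgroup K where
  carrier := {y | y ∈ Subgroup.center K ∧ ∃ m : ℕ, m.Coprime p ∧ y ^ m ∈ Subgroup.zpowers z}
  mul_mem' := by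
    rintro a b ⟨ha, m, hm, ham⟩ ⟨hb, k, hk, hbk⟩
    refine ⟨mul_mem ha hb, m * k, Nat.Coprime.mul_left hm hk, ?_⟩
    have hc : Commute a b := ((Subgroup.mem_center_iff.1 ha) b).symm
    rw [hc.mul_pow]
    refine mul_mem ?_ ?_
    · rw [pow_mul]; exact pow_mem ham k
    · rw [mul_comm, pow_mul]; exact pow_mem hbk m
  one_mem' := ⟨one_mem _, 1, Nat.coprime_one_left p, by simp⟩
  inv_mem' := by
    rintro a ⟨ha, m, hm, ham⟩
    exact ⟨inv_mem ha, m, hm, by rw [inv_pow]; exact inv_mem ham⟩

instance isolator_normal (p : ℕ) (z : K) : (isolator p z).Normal := by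
  constructor
  rintro a ⟨ha, m, hm, ham⟩ g
  have : g * a * g⁻¹ = a := by
    rw [Subgroup.mem_center_iff.1 ha g]; group
  rw [this]
  exact ⟨ha, m, hm, ham⟩

theorem isPGroup_of_key [hK : Group.IsNilpotent K] [hFG : Group.FG K] (hp : p.Prime)
    (hT : ∀ q : ℕ, q.Prime → q ≠ p → NoTors q K) (g : K) (hg : g ≠ 1)
    (key : ∀ M : Subgroup K, M.Normal → M ≠ ⊥ →
      (∀ q : ℕ, q.Prime → q ≠ p → ∀ h : K, h ^ q ∈ M → h ∈ M) → g ∈ M) : IsPGroup p K := by
  have hcop := noTors_coprime hp hT
  -- the centre is isolated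
  have hZiso : ∀ q : ℕ, q.Prime → q ≠ p → ∀ h : K, h ^ q ∈ Subgroup.center K →
      h ∈ Subgroup.center K := by
    intro q hq hqp h hh
    rw [← Subgroup.upperCentralSeries_one] at hh ⊢
    exact ucs_isolated (hT q hq hqp) 1 h hh
  have : Nontrivial K := ⟨⟨g, 1, hg⟩⟩
  have hgZ : g ∈ Subgroup.center K :=
    key _ inferInstance (Group.IsNilpotent.center_ne_bot K) hZiso
  have hI : ∀ z ∈ Subgroup.center K, z ≠ 1 → g ∈ isolator p z := by
    intro z hz hz1
    apply key _ inferInstance
    · intro hbot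
      have : z ∈ isolator p z := ⟨hz, 1, Nat.coprime_one_left p, by simp⟩
      rw [hbot] at this
      exact hz1 (Subgroup.mem_bot.1 this)
    · rintro q hq hqp h ⟨hh, m, hm, hhm⟩
      refine ⟨hZiso q hq hqp h hh, q * m, ?_, by rw [pow_mul]; exact hhm⟩
      exact Nat.Coprime.mul_left ((Nat.coprime_primes hq hp).2 hqp) hm
  -- `g` has finite order
  have hgfin : IsOfFinOrder g := by
    by_cases h1 : g ^ p = 1
    · exact isOfFinOrder_iff_pow_eq_one.2 ⟨p, hp.pos, h1⟩
    · obtain ⟨_, m, hm, k, hk⟩ := hI (g ^ p) (pow_mem hgZ p) h1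
      rw [isOfFinOrder_iff_zpow_eq_one]
      refine ⟨(p : ℤ) * k - m, ?_, ?_⟩
      · intro h0
        have h2 : (p : ℤ) ∣ (m : ℤ) := ⟨k, by linarith⟩
        have h3 : p ∣ m := by exact_mod_cast h2
        exact hp.one_lt.ne' (Nat.eq_one_of_dvd_coprimes hm h3 dvd_rfl)
      · have hk' : (g ^ p) ^ k = g ^ m := hk
        rw [zpow_sub, zpow_mul, zpow_natCast, zpow_natCast, hk', mul_inv_cancel]
  obtain ⟨a, ha⟩ := exists_pPow hp hT g hgfin
  -- the centre is a `p`-group
  have hZp : ∀ z ∈ Subgroup.center K, ∃ b : ℕ, z ^ p ^ b = 1 := by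
    intro z hz
    by_cases hz1 : z = 1
    · exact ⟨0, by simp [hz1]⟩
    · obtain ⟨_, m, hm, k, hk⟩ := hI z hz hz1
      have hk' : z ^ k = g ^ m := hk
      apply exists_pPow hp hT
      rw [isOfFinOrder_iff_zpow_eq_one]
      refine ⟨k * (p ^ a : ℕ), ?_, ?_⟩
      · intro h0
        have hpa : ((p ^ a : ℕ) : ℤ) ≠ 0 := by exact_mod_cast (pow_pos hp.pos a).ne'
        have hk0 : k = 0 := by
          rcases mul_eq_zero.1 h0 with h | h
          · exact h
          · exact absurd h hpa
        rw [hk0, zpow_zero] at hk'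
        exact hg (hcop m hm g hk'.symm)
      · rw [zpow_mul, hk', zpow_natCast, ← pow_mul, mul_comm, pow_mul, ha, one_pow]
  -- the factors of the upper central series are `p`-groups
  obtain ⟨S, hS⟩ := Group.fg_def.1 hFG
  have hstep : ∀ i : ℕ, ∀ h ∈ Subgroup.upperCentralSeries K (i + 1), ∃ m : ℕ,
      h ^ p ^ m ∈ Subgroup.upperCentralSeries K i := by
    intro i
    induction i with
    | zero =>
      intro h hh
      rw [zero_add, Subgroup.upperCentralSeries_one] at hh
      obtain ⟨b, hb⟩ := hZp h hh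
      exact ⟨b, by rw [hb]; exact one_mem _⟩
    | succ i ih =>
      intro h hh
      have h1 : ∀ s : K, ∃ m : ℕ, ⁅h, s⁆ ^ p ^ m ∈ Subgroup.upperCentralSeries K i :=
        fun s => ih _ (Subgroup.mem_upperCentralSeries_succ_iff.1 hh s)
      choose m hm using h1
      refine ⟨S.sup m, ?_⟩
      rw [Subgroup.mem_upperCentralSeries_succ_iff]
      intro k
      have hk : k ∈ Subgroup.closure (S : Set K) := by rw [hS]; trivial
      induction hk using Subgroup.closure_induction with
      | mem s hs =>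
        rw [ucs_comm_pow i h s hh]
        have : m s ≤ S.sup m := Finset.le_sup (f := m) (Finset.mem_coe.1 hs)
        obtain ⟨t, ht⟩ := Nat.exists_eq_add_of_le this
        rw [ht, pow_add, pow_mul]
        exact pow_mem (hm s) _
      | one => rw [commutatorElement_one_right]; exact one_mem _
      | mul x y _ _ hx hy =>
        have : ⁅h ^ p ^ S.sup m, x * y⁆ =
            ⁅h ^ p ^ S.sup m, x⁆ * (x * ⁅h ^ p ^ S.sup m, y⁆ * x⁻¹) := by
          simp only [commutatorElement_def]; group
        rw [this]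
        exact mul_mem hx ((inferInstance : (Subgroup.upperCentralSeries K i).Normal).conj_mem
          _ hy x)
      | inv x _ hx =>
        have : ⁅h ^ p ^ S.sup m, x⁻¹⁆ = x⁻¹ * ⁅h ^ p ^ S.sup m, x⁆⁻¹ * x⁻¹⁻¹ := by
          simp only [commutatorElement_def]; group
        rw [this]
        exact (inferInstance : (Subgroup.upperCentralSeries K i).Normal).conj_mem
          _ (inv_mem hx) x⁻¹
  -- conclude
  obtain ⟨c, hc⟩ := hK
  intro h
  have : ∀ j : ℕ, j ≤ c → ∃ m : ℕ, h ^ p ^ m ∈ Subgroup.upperCentralSeries K (c - j) := by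
    intro j
    induction j with
    | zero => intro _; exact ⟨0, by rw [Nat.sub_zero, hc]; trivial⟩
    | succ j ih =>
      intro hj
      obtain ⟨m, hm⟩ := ih (by omega)
      have h2 : c - j = (c - (j + 1)) + 1 := by omega
      rw [h2] at hm
      obtain ⟨m', hm'⟩ := hstep _ _ hm
      exact ⟨m + m', by rw [pow_add, pow_mul]; exact hm'⟩
  obtain ⟨m, hm⟩ := this c le_rfl
  rw [Nat.sub_self] at hm
  exact ⟨m, Subgroup.mem_bot.1 hm⟩

/-- Finitely generated nilpotent groups whose torsion is `p`-torsion are residually finite-`p`. -/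
theorem exists_finite_pQuotient {G : Type*} [Group G] [Group.FG G] [Group.IsNilpotent G]
    (hp : p.Prime) (hT : ∀ q : ℕ, q.Prime → q ≠ p → NoTors q G) (g : G) (hg : g ≠ 1) :
    ∃ N : Subgroup G, ∃ _ : N.Normal, g ∉ N ∧ Finite (G ⧸ N) ∧ IsPGroup p (G ⧸ N) := by
  set 𝒩 : Set (Subgroup G) := {N | N.Normal ∧ g ∉ N ∧
    ∀ q : ℕ, q.Prime → q ≠ p → ∀ h : G, h ^ q ∈ N → h ∈ N} with h𝒩
  obtain ⟨N, -, hN⟩ := zorn_le_nonempty₀ 𝒩 (by
    intro C hC hch N₀ hN₀
    have hne : C.Nonempty := ⟨N₀, hN₀⟩
    have hdir : DirectedOn (· ≤ ·) C := hch.directedOn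
    refine ⟨sSup C, ⟨?_, ?_, ?_⟩, fun z hz => le_sSup hz⟩
    · constructor
      intro x hx y
      rw [Subgroup.mem_sSup_of_directedOn hne hdir] at hx ⊢
      obtain ⟨s, hs, hxs⟩ := hx
      exact ⟨s, hs, (hC hs).1.conj_mem x hxs y⟩
    · rw [Subgroup.mem_sSup_of_directedOn hne hdir]
      rintro ⟨s, hs, hgs⟩
      exact (hC hs).2.1 hgs
    · intro q hq hqp h hh
      rw [Subgroup.mem_sSup_of_directedOn hne hdir] at hh ⊢
      obtain ⟨s, hs, hxs⟩ := hh
      exact ⟨s, hs, (hC hs).2.2 q hq hqp h hxs⟩) ⊥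
    ⟨inferInstance, fun h => hg (Subgroup.mem_bot.1 h), fun q hq hqp h hh =>
      Subgroup.mem_bot.2 (hT q hq hqp h (Subgroup.mem_bot.1 hh))⟩
  obtain ⟨⟨hNn, hgN, hNi⟩, hmax⟩ := hN
  have hTK : ∀ q : ℕ, q.Prime → q ≠ p → NoTors q (G ⧸ N) := by
    intro q hq hqp x hx
    obtain ⟨x, rfl⟩ := QuotientGroup.mk'_surjective N x
    rw [← map_pow, ← MonoidHom.mem_ker, QuotientGroup.ker_mk'] at hx
    rw [← MonoidHom.mem_ker, QuotientGroup.ker_mk']
    exact hNi q hq hqp x hx
  have hFGK : Group.FG (G ⧸ N) :=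
    Group.fg_of_surjective (f := QuotientGroup.mk' N) (QuotientGroup.mk'_surjective N)
  have hP : IsPGroup p (G ⧸ N) := by
    apply isPGroup_of_key hp hTK (QuotientGroup.mk' N g)
    · intro h
      rw [← MonoidHom.mem_ker, QuotientGroup.ker_mk'] at h
      exact hgN h
    · intro M hMn hMb hMi
      by_contra hgM
      apply hMb
      have h1 : M.comap (QuotientGroup.mk' N) ∈ 𝒩 := by
        refine ⟨inferInstance, hgM, ?_⟩
        intro q hq hqp h hh
        rw [Subgroup.mem_comap] at hh ⊢
        rw [map_pow] at hh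
        exact hMi q hq hqp _ hh
      have h2 : N ≤ M.comap (QuotientGroup.mk' N) := by
        intro x hx
        rw [Subgroup.mem_comap]
        rw [← QuotientGroup.ker_mk' N, MonoidHom.mem_ker] at hx
        rw [hx]; exact one_mem _
      have h3 := hmax h1 h2
      rw [eq_bot_iff]
      intro y hy
      obtain ⟨x, rfl⟩ := QuotientGroup.mk'_surjective N y
      have : x ∈ N := h3 (Subgroup.mem_comap.2 hy)
      rw [Subgroup.mem_bot, ← MonoidHom.mem_ker, QuotientGroup.ker_mk']
      exact this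
  refine ⟨N, hNn, hgN, ?_, hP⟩
  apply finite_of_fg_nilpotent_torsion
  intro x
  obtain ⟨k, hk⟩ := hP x
  exact isOfFinOrder_iff_pow_eq_one.2 ⟨p ^ k, pow_pos hp.pos k, hk⟩

end ppart

/-- The primes other than `p` form a sufficient set iff the finite `n`-Engel `p`-groups have
bounded class. -/
theorem sufficient_compl_iff.{u} (n p : ℕ) (hp : p.Prime) :
    Sufficient.{u} n {q | q.Prime ∧ q ≠ p} ↔ ∃ c : ℕ, ∀ (K : Type u) [Group K], Finite K →
      IsPGroup p K → IsEngel n K → Group.nilpotencyClass K ≤ c := by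
  rw [sufficient_iff_bound n {q | q.Prime ∧ q ≠ p} (fun q hq => hq.1)]
  have : Fact p.Prime := ⟨hp⟩
  constructor
  · rintro ⟨c, hc⟩
    refine ⟨c, fun K _ hf hK hE => ?_⟩
    have hnil : Group.IsNilpotent K := hK.isNilpotent
    rw [← classLE_iff_nilpotencyClass]
    apply hc K hnil hE
    rintro q ⟨hq, hqp⟩ x hx
    obtain ⟨k, hk⟩ := hK x
    have h1 : Nat.Coprime q (p ^ k) := Nat.Coprime.pow_right k ((Nat.coprime_primes hq hp).2 hqp)
    exact (pow_eq_one_iff_of_coprime h1).1 ⟨hx, hk⟩
  · rintro ⟨c, hc⟩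
    refine ⟨c, fun G _ hG hE hT x y => ?_⟩
    classical
    set H : Subgroup G :=
      Subgroup.closure (insert x ((Finset.range c).image y : Finset G)) with hH
    have hfg : Group.FG H := (Group.fg_iff_subgroup_fg H).2
      ⟨insert x ((Finset.range c).image y), by rw [hH]; simp⟩
    have hx : x ∈ H := Subgroup.subset_closure (Set.mem_insert _ _)
    have hy : ∀ i < c, y i ∈ H := fun i hi => Subgroup.subset_closure (Set.mem_insert_of_mem _
      (Finset.mem_coe.2 (Finset.mem_image_of_mem _ (Finset.mem_range.2 hi))))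
    set y' : ℕ → H := fun i => if h : i < c then ⟨y i, hy i h⟩ else 1 with hy'
    have h2 := iterComm_map H.subtype ⟨x, hx⟩ y' c
    have h3 : iterComm (⟨x, hx⟩ : H) y' c = 1 := by
      by_contra hne
      obtain ⟨N, hN, hgN, hfin, hP⟩ := exists_finite_pQuotient (G := H) hp
        (fun q hq hqp => (hT q ⟨hq, hqp⟩).of_injective H.subtype H.subtype_injective) _ hne
      have hnil : Group.IsNilpotent (H ⧸ N) := hP.isNilpotent
      have h4 := hc (H ⧸ N) hfin hP
        (isEngel_quotient (hE.of_injective H.subtype H.subtype_injective) N)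
      rw [← classLE_iff_nilpotencyClass] at h4
      have h5 := h4 (QuotientGroup.mk' N ⟨x, hx⟩) (fun i => QuotientGroup.mk' N (y' i))
      rw [iterComm_map, ← MonoidHom.mem_ker, QuotientGroup.ker_mk'] at h5
      exact hgN h5
    rw [h3, map_one] at h2
    rw [← h2]
    apply iterComm_congr
    intro i hi
    simp [hy', hi]

/-- Either no set of primes is sufficient, or the sufficient sets are the supersets of a finite
set of primes, which consists of the primes `p` for which the finite `n`-Engel `p`-groups have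
unbounded class. -/
theorem dichotomy.{u} (n : ℕ) :
    (∀ π : Set ℕ, (∀ p ∈ π, p.Prime) → ¬ Sufficient.{u} n π) ∨
    ∃ π₀ : Finset ℕ, (∀ p ∈ π₀, p.Prime) ∧
      (∀ π : Set ℕ, (∀ p ∈ π, p.Prime) → (Sufficient.{u} n π ↔ (π₀ : Set ℕ) ⊆ π)) ∧
      ∀ p : ℕ, p.Prime → (p ∈ π₀ ↔ ∀ c : ℕ, ∃ (K : Type u) (_ : Group K), Finite K ∧
        IsPGroup p K ∧ IsEngel n K ∧ c < Group.nilpotencyClass K) := by
  by_cases hall : Sufficient.{u} n {p | p.Prime}
  · right
    obtain ⟨π₁, hfin, hpr, hsuf⟩ := exists_finite_sufficient n hall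
    set P : Set ℕ := {p : ℕ | ∀ σ : Set ℕ, (∀ q ∈ σ, q.Prime) → Sufficient.{u} n σ → p ∈ σ}
      with hP
    have hPs : Sufficient.{u} n P := core_sufficient ⟨π₁, hfin, hpr, hsuf⟩
    have hPsub : P ⊆ π₁ := fun p hp => hp π₁ hpr hsuf
    have hPfin : P.Finite := hfin.subset hPsub
    have hiff : ∀ π : Set ℕ, (∀ p ∈ π, p.Prime) → (Sufficient.{u} n π ↔ P ⊆ π) :=
      fun π hπ => ⟨fun h p hp => hp π hπ h, fun h => Sufficient.mono h hPs⟩
    refine ⟨hPfin.toFinset, fun p hp => hpr p (hPsub (hPfin.mem_toFinset.1 hp)), ?_, ?_⟩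
    · intro π hπ
      rw [Set.Finite.coe_toFinset]
      exact hiff π hπ
    · intro p hp
      rw [Set.Finite.mem_toFinset]
      have h1 : Sufficient.{u} n {q | q.Prime ∧ q ≠ p} ↔ p ∉ P := by
        rw [hiff {q | q.Prime ∧ q ≠ p} (fun q hq => hq.1)]
        constructor
        · intro h hpP; exact (h hpP).2 rfl
        · intro h q hq
          exact ⟨hpr q (hPsub hq), fun hqp => h (hqp ▸ hq)⟩
      rw [sufficient_compl_iff n p hp] at h1
      rw [← not_iff_not, ← h1]
      push Not
      constructor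
      · rintro ⟨c, hc⟩
        exact ⟨c, fun K _ h1 h2 h3 => hc K h1 h2 h3⟩
      · rintro ⟨c, hc⟩
        exact ⟨c, fun K _ h1 h2 h3 => hc K _ h1 h2 h3⟩
  · left
    intro π hπ h
    exact hall (Sufficient.mono (fun p hp => hπ p hp) h)

end Pool.Agent.Lib.MP_cd48d2_al
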